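import Pool.Agent.Lib.MP_7eef47_al.U.Exc
import Pool.Agent.Lib.MP_7eef47_al.C.Undist

set_option autoImplicit false

namespace Pool.Agent.Results.MP_7eef47_al.CoxeterSpecial

open Pool.Agent.Lib.MP_7eef47_al Pool.Agent.Lib.MP_7eef47_al.U Pool.Agent.Lib.MP_b03b3a_al

theorem result {G : Type} [Group G] {B₁ : Type} [Finite B₁] (M₁ : CoxeterMatrix B₁)
    (G₁ : Subgroup G) [G₁.FiniteIndex] (cs : CoxeterSystem M₁ G₁) {B : Type} [Finite B]
    (M : CoxeterMatrix B) (hM : ∀ i j, i ≠ j → M i j = 2 ∨ M i j = 0) (G₀ : Subgroup G)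
    [G₀.FiniteIndex] (ι : G₀ →* M.Group) (hι : Function.Injective ι)
    (hcc : ConvexCocompact M ι.range) (S : Set G) (hS : S.Finite)
    (hgen : Subgroup.closure S = ⊤) (H : Subgroup G) (hfg : H.FG) (hm : AlmostMalnormal H) :
    StronglyQuasiconvex S H := by
  obtain ⟨R, rfl⟩ : ∃ R : RG B, R.cm = M := by
    refine ⟨⟨fun i j => M i j = 2, fun i j h => by rw [M.symmetric, h], fun i h => by simp at h⟩, ?_⟩
    ext i j
    simp only [RG.cm, Matrix.of_apply]
    by_cases h : i = j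
    · simp [h]
    · rcases hM i j h with e | e <;> simp [h, e]
  exact transfer R morse G G₀ ι hι hcc S hS hgen H (C.undistorted_virt G₁ cs hS hgen hfg hm)
    (C.centralizerFinite hm)

end Pool.Agent.Results.MP_7eef47_al.CoxeterSpecial
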