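import Mathlib
import Pool.Agent.Lib.MP_7eef47_al.Defs
import Pool.Agent.Lib.MP_7eef47_al.Fix.Ends

set_option autoImplicit false

namespace Pool.Agent.Results.MP_7eef47_al.FixedLattice

open Pool.Agent.Lib.MP_7eef47_al

/-- There is a torsion free, commutative transitive hierarchically hyperbolic group with a finitely
generated, malnormal, convex subgroup which is not strongly quasiconvex, is the fixed subgroup of an
automorphism, is one-ended and not virtually abelian, and whose Cayley graph is a product of two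
trees of degree four. -/
theorem result :
    ∃ (G : Type) (_ : Group G) (S : Set G), S.Finite ∧ Subgroup.closure S = ⊤ ∧
      IsHHG S ∧ (∀ g : G, IsOfFinOrder g → g = 1) ∧
      (∀ x y z : G, x ≠ 1 → x * y = y * x → x * z = z * x → y * z = z * y) ∧
      ∃ H : Subgroup G, H.FG ∧ AlmostMalnormal H ∧ ¬ StronglyQuasiconvex S H ∧
        (∀ g : G, g ∉ H → ∀ x ∈ H, g⁻¹ * x * g ∈ H → x = 1) ∧
        (∀ x ∈ H, ∀ y ∈ H, ∀ z : G,
          wordDist S x z + wordDist S z y = wordDist S x y → z ∈ H) ∧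
        (∃ σ : G ≃* G, (∀ g, σ (σ (σ g)) = g) ∧ ∀ g, g ∈ H ↔ σ g = g) ∧
        (∀ A : Subgroup H, A.FiniteIndex → ∃ x ∈ A, ∃ y ∈ A, x * y ≠ y * x) ∧
        (∀ F : Set H, F.Finite → ∃ F' : Set H, F'.Finite ∧ ∀ x ∉ F', ∀ y ∉ F',
          ∃ p : (SimpleGraph.mulCayley {h : H | (h : G) ∈ S}).Walk x y,
            ∀ z ∈ p.support, z ∉ F) ∧
        ∃ (V W : Type) (A : SimpleGraph V) (B : SimpleGraph W), A.IsTree ∧ B.IsTree ∧
          (∀ v, (A.neighborSet v).ncard = 4) ∧ (∀ w, (B.neighborSet w).ncard = 4) ∧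
          Nonempty (SimpleGraph.mulCayley {h : H | (h : G) ∈ S} ≃g A.boxProd B) :=
  ⟨Fix.Gam, inferInstance, Fix.gens, Fix.gens_finite, Fix.prodData.closure_eq_top,
    Fix.prodData.isHHG, Fix.torsionFree, Fix.comm_trans, Fix.Hfix,
    Fix.prodData.fix_fg Fix.sig Fix.gens_finite Fix.prodData_free (Fix.len_sig 1)
      (Fix.len_sig (-1)),
    fun g hg => (Set.finite_singleton 1).subset fun x hx => Fix.Hfix_malnormal g hg x hx.1 hx.2,
    Fix.Hfix_not_sqc, Fix.Hfix_malnormal,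
    Fix.prodData.fix_convex Fix.sig Fix.prodData_free (Fix.len_sig 1) (Fix.len_sig (-1)),
    ⟨Fix.sigAut, Fix.sig_three, fun _ => Iff.rfl⟩, Fix.Hfix_not_virt_ab, Fix.Hfix_one_end,
    _, _, Fix.prodH.tree, Fix.prodH.swap.tree, Fix.prodH.tree_isTree Fix.prodH_free,
    Fix.prodH.swap.tree_isTree Fix.prodH_free.swap, Fix.degree_one, Fix.degree_two,
    Fix.prodH.cayley_iso Fix.prodH_free⟩

end Pool.Agent.Results.MP_7eef47_al.FixedLattice
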