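import Pool.Agent.Lib.MP_7eef47_al.GQ.Virt

set_option autoImplicit false

namespace Pool.Agent.Results.MP_7eef47_al.GraphProducts

open Pool.Agent.Lib.MP_7eef47_al Pool.Agent.Lib.MP_7eef47_al.GP

theorem result {V : Type} [Finite V] (Γ : SimpleGraph V) (A : V → Type) [∀ v, Group (A v)]
    (hA : ∀ v, Finite (A v) ∨ IsCyclic (A v)) {G : Type} [Group G] (G₁ : Subgroup G)
    [G₁.FiniteIndex] (e : G₁ ≃* GraphProduct Γ A) (S : Set G) (hS : S.Finite)
    (hgen : Subgroup.closure S = ⊤) (H : Subgroup G) (hfg : H.FG) (hm : AlmostMalnormal H) :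
    StronglyQuasiconvex S H := by
  have D : ∀ v, Nonempty (GQ.VD (A v)) := fun v => by
    rcases finite_or_infinite (A v) with h | h
    · exact ⟨GQ.finVD _⟩
    · have := (hA v).resolve_left h.not_finite
      obtain ⟨g, hg⟩ := IsCyclic.exists_generator (α := A v)
      exact ⟨GQ.intVD _ (intEquivOfZPowersEqTop g ((Subgroup.eq_top_iff' _).2 hg))⟩
  exact GQ.main (fun v => (D v).some) G₁ e S hS hgen H hfg hm

end Pool.Agent.Results.MP_7eef47_al.GraphProducts
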