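import Pool.Agent.Lib.MP_7eef47_al.U.Exc
import Pool.Agent.Lib.MP_7eef47_al.U.Transfer

set_option autoImplicit false

namespace Pool.Agent.Results.MP_7eef47_al.UndistortedSpecial

open Pool.Agent.Lib.MP_7eef47_al Pool.Agent.Lib.MP_7eef47_al.U Pool.Agent.Lib.MP_b03b3a_al

theorem result {B : Type} [Finite B] (M : CoxeterMatrix B)
    (hM : ∀ i j, i ≠ j → M i j = 2 ∨ M i j = 0) {G : Type} [Group G] (G₀ : Subgroup G)
    [G₀.FiniteIndex] (ι : G₀ →* M.Group) (hι : Function.Injective ι)
    (hcc : ConvexCocompact M ι.range) (S : Set G) (hS : S.Finite)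
    (hgen : Subgroup.closure S = ⊤) (H : Subgroup G) (hU : Undistorted S H)
    (hC : CentralizerFinite H) : StronglyQuasiconvex S H := by
  obtain ⟨R, rfl⟩ : ∃ R : RG B, R.cm = M := by
    refine ⟨⟨fun i j => M i j = 2, fun i j h => by rw [M.symmetric, h], fun i h => by simp at h⟩, ?_⟩
    ext i j
    simp only [RG.cm, Matrix.of_apply]
    by_cases h : i = j
    · simp [h]
    · rcases hM i j h with e | e <;> simp [h, e]
  exact transfer R morse G G₀ ι hι hcc S hS hgen H hU hC

end Pool.Agent.Results.MP_7eef47_al.UndistortedSpecial
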